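import Pool.Agent.TH700.GT.Param
import Mathlib.Analysis.SpecialFunctions.Log.Basic
import Mathlib.Analysis.SpecialFunctions.Pow.Real

/-!
# Codes, and the bound for random networks
-/

set_option autoImplicit false

open Finset

namespace Pool.Agent.TH700.GT

open Pool.Agent.TH700.TN

variable {n : ℕ}

/-- The Hamming ball is small. -/
theorem ball_le (a : Fin n → Bool) (R : ℕ) {k : ℕ} (hk : 1 ≤ k) :
    ((univ.filter (fun y : Fin n → Bool => (df a y).card ≤ R)).card : ℝ) ≤
      (1 + 1 / k) ^ n * (k : ℝ) ^ R := by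
  classical
  have hk0 : (0 : ℝ) < k := by exact_mod_cast hk
  have h1 : ∑ y : Fin n → Bool, (1 / (k : ℝ)) ^ (df a y).card = (1 + 1 / k) ^ n := by
    have h2 := prod_univ_sum (fun _ : Fin n => (univ : Finset Bool)) (fun (v : Fin n) (b : Bool) =>
      if a v ≠ b then 1 / (k : ℝ) else 1)
    rw [Fintype.piFinset_univ] at h2
    have h3 : ∀ y : Fin n → Bool, ∏ v, (if a v ≠ y v then 1 / (k : ℝ) else 1) =
        (1 / (k : ℝ)) ^ (df a y).card := by
      intro y
      unfold df
      rw [prod_ite, prod_const, prod_const_one, mul_one]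
    rw [← sum_congr rfl fun y _ => h3 y, ← h2]
    have h4 : ∀ v : Fin n, ∑ b : Bool, (if a v ≠ b then 1 / (k : ℝ) else 1) = 1 + 1 / k := by
      intro v
      rw [Fintype.sum_bool]
      cases a v <;> simp [add_comm]
    rw [prod_congr rfl fun v _ => h4 v, prod_const, card_univ, Fintype.card_fin]
  have h2 : ((univ.filter (fun y : Fin n → Bool => (df a y).card ≤ R)).card : ℝ) *
      (1 / (k : ℝ)) ^ R ≤ (1 + 1 / k) ^ n := by
    rw [← h1, ← nsmul_eq_mul, ← sum_const]
    refine le_trans (sum_le_sum (fun y hy => ?_)) (sum_le_sum_of_subset_of_nonneg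
      (filter_subset (fun y => (df a y).card ≤ R) _) (fun y _ _ => by positivity))
    refine pow_le_pow_of_le_one (by positivity) ?_ (mem_filter.1 hy).2
    rw [div_le_one hk0]
    exact_mod_cast hk
  calc ((univ.filter (fun y : Fin n → Bool => (df a y).card ≤ R)).card : ℝ) =
      ((univ.filter (fun y : Fin n → Bool => (df a y).card ≤ R)).card : ℝ) *
      (1 / (k : ℝ)) ^ R * (k : ℝ) ^ R := by
        rw [mul_assoc, ← mul_pow, one_div_mul_cancel hk0.ne', one_pow, mul_one]
    _ ≤ _ := mul_le_mul_of_nonneg_right h2 (by positivity)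

/-- A code with large distance (Gilbert, Varshamov). -/
theorem exists_code (R : ℕ) {k : ℕ} (hk : 1 ≤ k) : ∃ C : Finset (Fin n → Bool),
    (∀ a ∈ C, ∀ b ∈ C, a ≠ b → R < (df a b).card) ∧
      (2 : ℝ) ^ n ≤ C.card * ((1 + 1 / k) ^ n * (k : ℝ) ^ R) := by
  classical
  obtain ⟨F, hF⟩ : ∃ F : Finset (Finset (Fin n → Bool)), F = univ.filter (fun C =>
    ∀ a ∈ C, ∀ b ∈ C, a ≠ b → R < (df a b).card) := ⟨_, rfl⟩
  have hne : F.Nonempty := ⟨∅, by rw [hF]; simp⟩
  obtain ⟨C, hC, hmax⟩ := exists_max_image F Finset.card hne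
  rw [hF, mem_filter] at hC
  refine ⟨C, hC.2, ?_⟩
  have hcov : (univ : Finset (Fin n → Bool)) ⊆ C.biUnion (fun a =>
      univ.filter (fun y : Fin n → Bool => (df a y).card ≤ R)) := by
    intro y _
    rw [mem_biUnion]
    by_contra hcon
    push Not at hcon
    have hfar : ∀ a ∈ C, R < (df a y).card := by
      intro a ha
      have := hcon a ha
      rw [mem_filter, not_and] at this
      exact not_le.1 (this (mem_univ _))
    have hyC : y ∉ C := by
      intro hy
      have h1 := hfar y hy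
      have h2 : df y y = ∅ := by
        rw [eq_empty_iff_forall_notMem]
        intro v hv
        rw [mem_df] at hv
        exact hv rfl
      rw [h2, card_empty] at h1
      omega
    have h1 : insert y C ∈ F := by
      rw [hF, mem_filter]
      refine ⟨mem_univ _, ?_⟩
      intro a ha b hb hab
      rw [mem_insert] at ha hb
      rcases ha with rfl | ha
      · rcases hb with rfl | hb
        · exact absurd rfl hab
        · rw [df_comm]
          exact hfar b hb
      · rcases hb with rfl | hb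
        · exact hfar a ha
        · exact hC.2 a ha b hb hab
    have h2 := hmax _ h1
    rw [card_insert_of_notMem hyC] at h2
    omega
  have h1 := (card_le_card hcov).trans card_biUnion_le
  have h2 : ((univ : Finset (Fin n → Bool)).card : ℝ) ≤ ∑ a ∈ C,
      ((univ.filter (fun y : Fin n → Bool => (df a y).card ≤ R)).card : ℝ) := by
    exact_mod_cast h1
  have h3 : ((univ : Finset (Fin n → Bool)).card : ℝ) = 2 ^ n := by simp
  rw [h3] at h2
  refine h2.trans ?_
  calc ∑ a ∈ C, ((univ.filter (fun y : Fin n → Bool => (df a y).card ≤ R)).card : ℝ) ≤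
      ∑ _a ∈ C, ((1 + 1 / k) ^ n * (k : ℝ) ^ R) := sum_le_sum fun a _ => ball_le a R hk
    _ = _ := by rw [sum_const, nsmul_eq_mul]

/-- Codes of distance more than `n / r` with almost `2 ^ n` elements. -/
theorem big_code {δ : ℝ} (hδ : 0 < δ) : ∃ r : ℕ, 1 ≤ r ∧ ∀ n : ℕ,
    ∃ C : Finset (Fin n → Bool), (∀ a ∈ C, ∀ b ∈ C, a ≠ b → n / r < (df a b).card) ∧
      (2 : ℝ) ^ ((1 - δ) * n) ≤ C.card := by
  have hl : 0 < Real.log 2 := Real.log_pos (by norm_num)
  obtain ⟨k, hk⟩ := exists_nat_gt (2 / (δ * Real.log 2))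
  have hk0 : (0 : ℝ) < k := lt_trans (by positivity) hk
  have hk1 : 1 ≤ k := by exact_mod_cast hk0
  obtain ⟨r, hr⟩ := exists_nat_gt (2 * Real.log k / (δ * Real.log 2))
  refine ⟨r + 1, by omega, fun n => ?_⟩
  obtain ⟨C, h1, h2⟩ := exists_code (n := n) (n / (r + 1)) hk1
  refine ⟨C, h1, ?_⟩
  have hlk : 0 ≤ Real.log k := Real.log_nonneg (by exact_mod_cast hk1)
  have e1 : (1 + 1 / (k : ℝ)) ^ n ≤ Real.exp (δ * Real.log 2 / 2 * n) := by
    have h3 : 1 + 1 / (k : ℝ) ≤ Real.exp (1 / k) := by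
      have := Real.add_one_le_exp (1 / (k : ℝ))
      linarith
    calc (1 + 1 / (k : ℝ)) ^ n ≤ Real.exp (1 / k) ^ n :=
          pow_le_pow_left₀ (by positivity) h3 n
      _ = Real.exp (n * (1 / k)) := by rw [Real.exp_nat_mul]
      _ ≤ _ := by
        rw [Real.exp_le_exp]
        have h4 : 1 / (k : ℝ) ≤ δ * Real.log 2 / 2 := by
          rw [div_le_iff₀ hk0]
          rw [div_lt_iff₀ (by positivity)] at hk
          linarith
        calc (n : ℝ) * (1 / k) ≤ n * (δ * Real.log 2 / 2) :=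
              mul_le_mul_of_nonneg_left h4 (Nat.cast_nonneg _)
          _ = _ := by ring
  have e2 : (k : ℝ) ^ (n / (r + 1)) ≤ Real.exp (δ * Real.log 2 / 2 * n) := by
    have h3 : (k : ℝ) ^ (n / (r + 1)) = Real.exp (Real.log k * (n / (r + 1) : ℕ)) := by
      rw [mul_comm, Real.exp_nat_mul, Real.exp_log hk0]
    rw [h3, Real.exp_le_exp]
    have h4 : ((n / (r + 1) : ℕ) : ℝ) ≤ n / ((r + 1 : ℕ) : ℝ) := Nat.cast_div_le
    have h5 : 2 * Real.log k ≤ δ * Real.log 2 * (r + 1 : ℕ) := by
      rw [div_lt_iff₀ (by positivity)] at hr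
      have h6 : 0 < δ * Real.log 2 := by positivity
      push_cast
      nlinarith
    have h6 : (0 : ℝ) < (r + 1 : ℕ) := by positivity
    calc Real.log k * ((n / (r + 1) : ℕ) : ℝ) ≤ Real.log k * (n / ((r + 1 : ℕ) : ℝ)) :=
          mul_le_mul_of_nonneg_left h4 hlk
      _ = (2 * Real.log k) * n / (2 * ((r + 1 : ℕ) : ℝ)) := by field_simp
      _ ≤ (δ * Real.log 2 * (r + 1 : ℕ)) * n / (2 * ((r + 1 : ℕ) : ℝ)) := by
          refine div_le_div_of_nonneg_right ?_ (by positivity)
          exact mul_le_mul_of_nonneg_right h5 (Nat.cast_nonneg _)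
      _ = _ := by field_simp
  have e3 : (1 + 1 / (k : ℝ)) ^ n * (k : ℝ) ^ (n / (r + 1)) ≤ (2 : ℝ) ^ (δ * n) := by
    calc _ ≤ Real.exp (δ * Real.log 2 / 2 * n) * Real.exp (δ * Real.log 2 / 2 * n) :=
          mul_le_mul e1 e2 (by positivity) (by positivity)
      _ = _ := by
        rw [← Real.exp_add, Real.rpow_def_of_pos (by norm_num)]
        congr 1
        ring
  have e4 : (2 : ℝ) ^ n ≤ C.card * (2 : ℝ) ^ (δ * n) :=
    h2.trans (mul_le_mul_of_nonneg_left e3 (Nat.cast_nonneg _))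
  have e5 : (2 : ℝ) ^ ((1 - δ) * n) * (2 : ℝ) ^ (δ * n) = (2 : ℝ) ^ n := by
    rw [← Real.rpow_add (by norm_num), ← Real.rpow_natCast]
    congr 1
    ring
  rw [← e5] at e4
  exact le_of_mul_le_mul_right e4 (by positivity)

variable {M : ℕ} {K W : Type}

/-- A network which reads every clause accepts few of the codewords. -/
theorem card_code [Field K] [Fintype W] {e : Fin M → Fin 3 → Fin n} {s s₁ h u w q R E : ℕ}
    (P : Par e s s₁ h u w q R) (hq : 8 * M ≤ E * q) (T : Net K (Cl M) W) (a : W → K)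
    (h1 : ∀ c, T.reads c = 1) (hs : ∀ x, T.value a x ≠ 0 → ¬ Far E e x)
    (C : Finset (Fin n → Bool)) (hC : ∀ α ∈ C, ∀ β ∈ C, α ≠ β → R < (df α β).card)
    (ha : ∀ α ∈ C, T.value a (sel e α) ≠ 0) : C.card ≤ T.size * Fintype.card W := by
  classical
  obtain ⟨g, hE, hg⟩ := P.exp
  have hroot : ∀ β : Fin n → Bool, (poor e h (tr e (rdv T) β)).card < s := by
    intro β
    have h2 := three_parts hE hg (F₁ := tr e (rdv T) β) (F₂ := tr e (rdv T) β)
      (F₃ := tr e (rdv T) β) (fun i => by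
        left
        rw [mem_tr, mem_rdv, h1]
        norm_num)
    rcases h2 with h2 | h2 | h2 <;> exact h2
  have hcov : C ⊆ (cutsv T).biUnion (fun A => C.filter (fun α =>
      (poor e h (tr e A α)).card < s ∧ (poor e h (tr e Aᶜ α)).card < s)) := by
    intro α hα
    obtain ⟨A, hA, h2⟩ := walk hE hg P.hh P.hs α T (hroot α)
    rw [mem_biUnion]
    exact ⟨A, hA, mem_filter.2 ⟨hα, h2⟩⟩
  refine (card_le_card hcov).trans (card_biUnion_le.trans ?_)
  calc ∑ A ∈ cutsv T, (C.filter (fun α =>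
      (poor e h (tr e A α)).card < s ∧ (poor e h (tr e Aᶜ α)).card < s)).card ≤
      ∑ _A ∈ cutsv T, Fintype.card W := by
        refine sum_le_sum fun A hA => ?_
        have hcut := cutsv_cut T a (fun c => (h1 c).le) A hA
        refine card_le_rank hcut _ (fun α => sel e α) (fun α hα => ha α (mem_filter.1 hα).1) ?_
        intro α hα β hβ hαβ
        rw [mem_filter] at hα hβ
        by_contra hne
        exact hs _ hne (far_mix P hq hα.2.2 hβ.2.1 (hC α hα.1 β hβ.1 hαβ))
    _ = (cutsv T).card * Fintype.card W := by rw [sum_const, smul_eq_mul]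
    _ ≤ _ := Nat.mul_le_mul_right _ (card_cutsv T)

theorem card_code' [Field K] [Fintype W] {e : Fin M → Fin 3 → Fin n} {s s₁ h u w q R E : ℕ}
    (P : Par e s s₁ h u w q R) (hq : 8 * M ≤ E * q) (T : Net K (Cl M) W) (a : W → K)
    (h1 : ∀ c, T.reads c ≤ 1) (hs : ∀ x, T.value a x ≠ 0 → ¬ Far E e x)
    (C : Finset (Fin n → Bool)) (hC : ∀ α ∈ C, ∀ β ∈ C, α ≠ β → R < (df α β).card)
    (ha : ∀ α ∈ C, T.value a (sel e α) ≠ 0) :
    C.card ≤ (1 + 16 * M) * (T.size * Fintype.card W) := by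
  classical
  rcases C.eq_empty_or_nonempty with rfl | ⟨α, hα⟩
  · simp
  · have hW : Nonempty W := by
      by_contra hW
      rw [not_nonempty_iff] at hW
      apply ha α hα
      unfold Net.value
      exact Fintype.sum_empty _
    obtain ⟨T', g1, g2, g3⟩ := exists_ext T h1
    have hv : ∀ x, T'.value a x = T.value a x := by
      intro x
      unfold Net.value
      rw [g2]
    have h2 := card_code P hq T' a g1 (fun x hx => hs x (by rwa [← hv])) C hC
      (fun β hβ => by rw [hv]; exact ha β hβ)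
    refine h2.trans ?_
    have h3 : Fintype.card (Cl M) = 8 * M := by
      simp
      ring
    have h4 : 1 ≤ T.size := by
      cases T with
      | leaf v f => exact le_rfl
      | node l t c => exact Nat.le_add_left _ _
    calc T'.size * Fintype.card W ≤ (T.size + 2 * (8 * M)) * Fintype.card W := by
          rw [h3] at g3
          exact Nat.mul_le_mul_right _ g3
      _ ≤ ((1 + 16 * M) * T.size) * Fintype.card W := by
          refine Nat.mul_le_mul_right _ ?_
          have : 16 * M * 1 ≤ 16 * M * T.size := Nat.mul_le_mul_left _ h4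
          calc T.size + 2 * (8 * M) = T.size + 16 * M * 1 := by ring
            _ ≤ T.size + 16 * M * T.size := by omega
            _ = _ := by ring
      _ = _ := by ring

/-- Random networks. -/
theorem random_code {e : Fin M → Fin 3 → Fin n} {s s₁ h u w q d E : ℕ}
    (P : Par e s s₁ h u w q d) (hq : 8 * M ≤ E * q) (μ : ℕ) (R : Type) [Fintype R] [Nonempty R]
    (K W : R → Type) [∀ ρ, Field (K ρ)] [∀ ρ, Fintype (W ρ)]
    (T : ∀ ρ, Net (K ρ) (Cl M) (W ρ)) (a : ∀ ρ, W ρ → K ρ)
    (h1 : ∀ ρ c, (T ρ).reads c ≤ 1) (hs : ∀ ρ x, (T ρ).value (a ρ) x ≠ 0 → ¬ Far E e x)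
    (hc : ∀ x, Sat e x → Nat.card R ≤ 2 ^ μ * Nat.card {ρ // (T ρ).value (a ρ) x ≠ 0})
    (C : Finset (Fin n → Bool)) (hC : ∀ α ∈ C, ∀ β ∈ C, α ≠ β → d < (df α β).card) :
    ∃ ρ, C.card ≤ 2 ^ μ * ((1 + 16 * M) * ((T ρ).size * Fintype.card (W ρ))) := by
  classical
  by_contra hcon
  push Not at hcon
  have h2 : ∀ ρ, 2 ^ μ * (C.filter (fun α => (T ρ).value (a ρ) (sel e α) ≠ 0)).card < C.card := by
    intro ρ
    refine lt_of_le_of_lt (Nat.mul_le_mul_left _ ?_) (hcon ρ)
    exact card_code' P hq (T ρ) (a ρ) (h1 ρ) (hs ρ) _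
      (fun α hα β hβ => hC α (mem_filter.1 hα).1 β (mem_filter.1 hβ).1)
      (fun α hα => (mem_filter.1 hα).2)
  have h3 : ∑ ρ : R, 2 ^ μ * (C.filter (fun α => (T ρ).value (a ρ) (sel e α) ≠ 0)).card <
      Fintype.card R * C.card := by
    calc _ < ∑ _ρ : R, C.card := sum_lt_sum_of_nonempty univ_nonempty (fun ρ _ => h2 ρ)
      _ = _ := by rw [sum_const, card_univ, smul_eq_mul]
  have h4 : Fintype.card R * C.card ≤ ∑ ρ : R, 2 ^ μ *
      (C.filter (fun α => (T ρ).value (a ρ) (sel e α) ≠ 0)).card := by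
    have h5 : ∑ ρ : R, (C.filter (fun α => (T ρ).value (a ρ) (sel e α) ≠ 0)).card =
        ∑ α ∈ C, (univ.filter (fun ρ : R => (T ρ).value (a ρ) (sel e α) ≠ 0)).card := by
      simp only [card_filter]
      exact sum_comm
    rw [← mul_sum, h5, mul_sum, mul_comm, ← smul_eq_mul, ← sum_const]
    refine sum_le_sum (fun α _ => ?_)
    have h6 := hc _ (sat_sel e α)
    rw [Nat.card_eq_fintype_card, Nat.card_eq_fintype_card, Fintype.card_subtype] at h6
    exact h6
  omega

end Pool.Agent.TH700.GT
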