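import Pool.Agent.TH700.GT.Defs
import Pool.Agent.TH700.GT.Cut

/-!
# The cut of a network and the clauses violated by an assignment
-/

set_option autoImplicit false

open Finset

namespace Pool.Agent.TH700.GT

open Pool.Agent.TH700.TN

variable {M n : ℕ} {K W : Type}

/-- The clauses. -/
abbrev Cl (M : ℕ) : Type := Fin M × (Fin 3 → Bool)

/-- The clause on the triple `i` violated by `β`. -/
def vc (e : Fin M → Fin 3 → Fin n) (β : Fin n → Bool) (i : Fin M) : Cl M :=
  (i, fun r => !(β (e i r)))

theorem violates_iff (e : Fin M → Fin 3 → Fin n) (β : Fin n → Bool) (c : Cl M) :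
    Violates e β c ↔ c = vc e β c.1 := by
  unfold Violates vc
  constructor
  · intro h
    refine Prod.ext rfl (funext fun r => ?_)
    have h1 := h r
    show c.2 r = !(β (e c.1 r))
    cases h2 : β (e c.1 r) <;> cases h3 : c.2 r <;> simp_all
  · intro h r
    rw [h]
    simp

open Classical in
/-- The triples which meet the set `S`. -/
noncomputable def tch (e : Fin M → Fin 3 → Fin n) (S : Finset (Fin n)) : Finset (Fin M) :=
  univ.filter (fun i => ∃ r, e i r ∈ S)

theorem mem_tch {e : Fin M → Fin 3 → Fin n} {S : Finset (Fin n)} {i : Fin M} :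
    i ∈ tch e S ↔ ∃ r, e i r ∈ S := by
  unfold tch
  simp

open Classical in
/-- The triples whose clause violated by `β` is in `A`. -/
noncomputable def tr (e : Fin M → Fin 3 → Fin n) (A : Finset (Cl M)) (β : Fin n → Bool) :
    Finset (Fin M) :=
  univ.filter (fun i => vc e β i ∈ A)

theorem mem_tr {e : Fin M → Fin 3 → Fin n} {A : Finset (Cl M)} {β : Fin n → Bool} {i : Fin M} :
    i ∈ tr e A β ↔ vc e β i ∈ A := by
  unfold tr
  simp

open Classical in
/-- The number of triples in `F` which contain `v`. -/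
noncomputable def dg (e : Fin M → Fin 3 → Fin n) (F : Finset (Fin M)) (v : Fin n) : ℕ :=
  (F.filter (fun i => ∃ r, e i r = v)).card

open Classical in
/-- The variables in less than `h` of the triples in `F`. -/
noncomputable def poor (e : Fin M → Fin 3 → Fin n) (h : ℕ) (F : Finset (Fin M)) : Finset (Fin n) :=
  univ.filter (fun v => dg e F v < h)

theorem mem_poor {e : Fin M → Fin 3 → Fin n} {h : ℕ} {F : Finset (Fin M)} {v : Fin n} :
    v ∈ poor e h F ↔ dg e F v < h := by
  unfold poor
  simp

theorem dg_le {e : Fin M → Fin 3 → Fin n} {F G : Finset (Fin M)} (h : F ⊆ G) (v : Fin n) :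
    dg e F v ≤ dg e G v := by
  unfold dg
  exact card_le_card (filter_subset_filter _ h)

/-- Few triples of `F` meet the poor variables. -/
theorem poor_count (e : Fin M → Fin 3 → Fin n) (h : ℕ) (F : Finset (Fin M)) :
    (F ∩ tch e (poor e h F)).card ≤ h * n := by
  classical
  have h1 : F ∩ tch e (poor e h F) ⊆ (poor e h F).biUnion
      (fun v => F.filter (fun i => ∃ r, e i r = v)) := by
    intro i hi
    rw [mem_inter, mem_tch] at hi
    obtain ⟨hi, r, hr⟩ := hi
    rw [mem_biUnion]
    exact ⟨e i r, hr, mem_filter.2 ⟨hi, r, rfl⟩⟩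
  refine (card_le_card h1).trans (card_biUnion_le.trans ?_)
  calc ∑ v ∈ poor e h F, (F.filter (fun i => ∃ r, e i r = v)).card ≤ ∑ _v ∈ poor e h F, h := by
        refine sum_le_sum fun v hv => ?_
        rw [mem_poor] at hv
        exact hv.le
    _ = (poor e h F).card * h := by rw [sum_const, smul_eq_mul]
    _ ≤ n * h := by
        refine Nat.mul_le_mul_right _ ?_
        have := card_le_univ (poor e h F)
        rwa [Fintype.card_fin] at this
    _ = _ := mul_comm _ _

/-- Double counting. -/
theorem rich_count (e : Fin M → Fin 3 → Fin n) (h : ℕ) (F : Finset (Fin M)) :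
    h * (univ.filter (fun v => h ≤ dg e F v)).card ≤ 3 * F.card := by
  classical
  have h1 : h * (univ.filter (fun v => h ≤ dg e F v)).card ≤ ∑ v, dg e F v := by
    calc h * (univ.filter (fun v => h ≤ dg e F v)).card =
        ∑ _v ∈ univ.filter (fun v => h ≤ dg e F v), h := by
          rw [sum_const, smul_eq_mul, mul_comm]
      _ ≤ ∑ v ∈ univ.filter (fun v => h ≤ dg e F v), dg e F v :=
          sum_le_sum fun v hv => (mem_filter.1 hv).2
      _ ≤ _ := sum_le_sum_of_subset (filter_subset _ _)
  refine h1.trans ?_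
  have h2 : ∑ v, dg e F v = ∑ i ∈ F, (univ.filter (fun v => ∃ r, e i r = v)).card := by
    unfold dg
    simp only [card_filter]
    exact sum_comm
  rw [h2]
  calc ∑ i ∈ F, (univ.filter (fun v => ∃ r, e i r = v)).card ≤ ∑ _i ∈ F, 3 := by
        refine sum_le_sum fun i _ => ?_
        have h3 : univ.filter (fun v => ∃ r, e i r = v) ⊆ univ.image (e i) := by
          intro v hv
          obtain ⟨r, hr⟩ := (mem_filter.1 hv).2
          exact mem_image.2 ⟨r, mem_univ _, hr⟩
        refine (card_le_card h3).trans (card_image_le.trans ?_)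
        rw [card_univ, Fintype.card_fin]
    _ = _ := by rw [sum_const, smul_eq_mul, mul_comm]

/-- Every three sets of at least `s` variables are met by at least `g` triples. -/
def Exp (e : Fin M → Fin 3 → Fin n) (s g : ℕ) : Prop :=
  ∀ X Y Z : Finset (Fin n), s ≤ X.card → s ≤ Y.card → s ≤ Z.card →
    g ≤ (tch e X ∩ tch e Y ∩ tch e Z).card

theorem three_parts {e : Fin M → Fin 3 → Fin n} {s g h : ℕ} (hE : Exp e s g) (hg : 3 * (h * n) < g)
    {F₁ F₂ F₃ : Finset (Fin M)} (hF : ∀ i, i ∈ F₁ ∨ i ∈ F₂ ∨ i ∈ F₃) :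
    (poor e h F₁).card < s ∨ (poor e h F₂).card < s ∨ (poor e h F₃).card < s := by
  classical
  by_contra hcon
  push Not at hcon
  obtain ⟨h1, h2, h3⟩ := hcon
  have h4 := hE _ _ _ h1 h2 h3
  have h5 : tch e (poor e h F₁) ∩ tch e (poor e h F₂) ∩ tch e (poor e h F₃) ⊆
      (F₁ ∩ tch e (poor e h F₁)) ∪ ((F₂ ∩ tch e (poor e h F₂)) ∪
        (F₃ ∩ tch e (poor e h F₃))) := by
    intro i hi
    rw [mem_inter, mem_inter] at hi
    rw [mem_union, mem_union, mem_inter, mem_inter, mem_inter]
    rcases hF i with h6 | h6 | h6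
    · exact Or.inl ⟨h6, hi.1.1⟩
    · exact Or.inr (Or.inl ⟨h6, hi.1.2⟩)
    · exact Or.inr (Or.inr ⟨h6, hi.2⟩)
  have h6 := card_le_card h5
  have h7 := card_union_le (F₁ ∩ tch e (poor e h F₁)) ((F₂ ∩ tch e (poor e h F₂)) ∪
        (F₃ ∩ tch e (poor e h F₃)))
  have h8 := card_union_le (F₂ ∩ tch e (poor e h F₂)) (F₃ ∩ tch e (poor e h F₃))
  have h9 := poor_count e h F₁
  have h10 := poor_count e h F₂
  have h11 := poor_count e h F₃
  omega

/-- Below some node the clauses are such that the triples of both sides reach most variables. -/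
theorem walk {e : Fin M → Fin 3 → Fin n} {s g h : ℕ} (hE : Exp e s g) (hg : 3 * (h * n) < g)
    (hh : 2 ≤ h) (hs : s ≤ n) (β : Fin n → Bool) (T : Net K (Cl M) W) :
    (poor e h (tr e (rdv T) β)).card < s → ∃ A ∈ cutsv T, (poor e h (tr e A β)).card < s ∧
      (poor e h (tr e Aᶜ β)).card < s := by
  classical
  induction T with
  | leaf v f =>
    intro h1
    exfalso
    have h2 : poor e h (tr e (rdv (.leaf v f : Net K (Cl M) W)) β) = univ := by
      rw [eq_univ_iff_forall]
      intro u
      rw [mem_poor]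
      have h3 : dg e (tr e (rdv (.leaf v f : Net K (Cl M) W)) β) u ≤ 1 := by
        unfold dg
        rw [card_le_one]
        intro i hi j hj
        rw [mem_filter, mem_tr, mem_rdv_leaf] at hi hj
        exact congrArg Prod.fst (hi.1.trans hj.1.symm)
      omega
    rw [h2, card_univ, Fintype.card_fin] at h1
    omega
  | node l t c hl ht =>
    intro h1
    by_cases h2 : (poor e h (tr e (rdv l) β)).card < s
    · obtain ⟨A, hA, h3⟩ := hl h2
      exact ⟨A, mem_cutsv_node.2 (Or.inr (Or.inl hA)), h3⟩
    · by_cases h3 : (poor e h (tr e (rdv t) β)).card < s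
      · obtain ⟨A, hA, h4⟩ := ht h3
        exact ⟨A, mem_cutsv_node.2 (Or.inr (Or.inr hA)), h4⟩
      · refine ⟨rdv (.node l t c), rdv_mem_cutsv _, h1, ?_⟩
        have h4 := three_parts hE hg (F₁ := tr e (rdv l) β) (F₂ := tr e (rdv t) β)
          (F₃ := tr e (rdv (.node l t c))ᶜ β) ?_
        · rcases h4 with h4 | h4 | h4
          · exact absurd h4 h2
          · exact absurd h4 h3
          · exact h4
        · intro i
          rw [mem_tr, mem_tr, mem_tr, mem_compl, mem_rdv_node]
          tauto

/-- All clauses satisfied by `a`. -/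
noncomputable def sel (e : Fin M → Fin 3 → Fin n) (a : Fin n → Bool) : Cl M → Bool :=
  fun c => !(decide (c = vc e a c.1))

theorem sel_true {e : Fin M → Fin 3 → Fin n} {a : Fin n → Bool} {c : Cl M} :
    sel e a c = true ↔ ¬ Violates e a c := by
  unfold sel
  rw [violates_iff]
  simp

theorem sat_sel (e : Fin M → Fin 3 → Fin n) (a : Fin n → Bool) : Sat e (sel e a) :=
  ⟨a, fun _ h => sel_true.1 h⟩

open Classical in
/-- The triples whose clause violated by `β` is selected. -/
noncomputable def bad (e : Fin M → Fin 3 → Fin n) (x : Cl M → Bool) (β : Fin n → Bool) :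
    Finset (Fin M) :=
  univ.filter (fun i => x (vc e β i) = true)

theorem mem_bad {e : Fin M → Fin 3 → Fin n} {x : Cl M → Bool} {β : Fin n → Bool} {i : Fin M} :
    i ∈ bad e x β ↔ x (vc e β i) = true := by
  unfold bad
  simp

/-- If `β` violates the clause on `i` in `A`, but it is not selected, then `β` agrees with `a`. -/
theorem agree {e : Fin M → Fin 3 → Fin n} {a β : Fin n → Bool} {i : Fin M}
    (h : sel e a (vc e β i) ≠ true) (r : Fin 3) : a (e i r) = β (e i r) := by
  rw [Ne, sel_true, not_not] at h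
  have h1 := h r
  have h2 : (vc e β i).1 = i := rfl
  have h3 : (vc e β i).2 r = !(β (e i r)) := rfl
  rw [h2, h3] at h1
  revert h1
  cases a (e i r) <;> cases β (e i r) <;> simp

open Classical in
/-- The variables on which two assignments differ. -/
noncomputable def df (a b : Fin n → Bool) : Finset (Fin n) := univ.filter (fun v => a v ≠ b v)

theorem mem_df {a b : Fin n → Bool} {v : Fin n} : v ∈ df a b ↔ a v ≠ b v := by
  unfold df
  simp

theorem df_comm (a b : Fin n → Bool) : df a b = df b a := by
  ext v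
  rw [mem_df, mem_df]
  exact ne_comm

/-- First half of the argument: if the side `F` of `β` reaches most variables then `a` is close to
`β`. -/
theorem half {e : Fin M → Fin 3 → Fin n} {s q h k : ℕ} {a β : Fin n → Bool}
    {F E : Finset (Fin M)} (hp : (poor e h F).card < s) (hE : E.card ≤ q)
    (hF : ∀ i ∈ F, i ∉ E → ∀ r, a (e i r) = β (e i r)) (hk : 3 * q ≤ h * k) (h0 : 1 ≤ h) :
    (df a β).card ≤ s + k := by
  classical
  have h1 : df a β ⊆ poor e h F ∪ univ.filter (fun v => h ≤ dg e E v) := by
    intro v hv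
    rw [mem_df] at hv
    rw [mem_union, mem_poor, mem_filter]
    rcases Nat.lt_or_ge (dg e F v) h with h2 | h2
    · exact Or.inl h2
    · refine Or.inr ⟨mem_univ _, h2.trans ?_⟩
      unfold dg
      refine card_le_card fun i hi => ?_
      rw [mem_filter] at hi ⊢
      obtain ⟨h3, r, rfl⟩ := hi
      refine ⟨?_, r, rfl⟩
      by_contra h4
      exact hv (hF i h3 h4 r)
  have h2 := (card_le_card h1).trans (card_union_le _ _)
  have h3 := rich_count e h E
  have h4 : (univ.filter (fun v => h ≤ dg e E v)).card ≤ k := by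
    refine Nat.le_of_mul_le_mul_left (h3.trans ?_) h0
    exact (Nat.mul_le_mul_left 3 hE).trans hk
  omega

/-- The parameters of the argument. -/
structure Par (e : Fin M → Fin 3 → Fin n) (s s₁ h u w q R : ℕ) : Prop where
  exp₁ : ∃ g, Exp e s₁ g ∧ 3 * (1 * n) < g
  exp : ∃ g, Exp e s g ∧ 3 * (h * n) < g
  tch : ∀ S : Finset (Fin n), S.card ≤ u → (tch e S).card ≤ w
  hh : 2 ≤ h
  hs : s ≤ n
  hu : s₁ + 3 * q ≤ u
  hR : u + s ≤ R
  hw : 3 * (w + q) ≤ h * (R - u - s)

theorem close {e : Fin M → Fin 3 → Fin n} {s s₁ h u w q R : ℕ} (P : Par e s s₁ h u w q R)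
    {A : Finset (Cl M)} {a b β : Fin n → Bool}
    (ha : (poor e h (tr e Aᶜ a)).card < s) (hb : (poor e h (tr e A b)).card < s)
    (hβ : (bad e (mix A (sel e a) (sel e b)) β).card ≤ q) : (df a b).card ≤ R := by
  classical
  obtain ⟨g₁, hE₁, hg₁⟩ := P.exp₁
  obtain ⟨E, hE⟩ : ∃ E, E = bad e (mix A (sel e a) (sel e b)) β := ⟨_, rfl⟩
  rw [← hE] at hβ
  have hA : ∀ i ∈ tr e A β, i ∉ E → ∀ r, a (e i r) = β (e i r) := by
    intro i hi hiE
    rw [mem_tr] at hi
    rw [hE, mem_bad] at hiE
    unfold mix at hiE
    rw [if_pos hi] at hiE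
    exact agree hiE
  have hB : ∀ i ∈ tr e Aᶜ β, i ∉ E → ∀ r, b (e i r) = β (e i r) := by
    intro i hi hiE
    rw [mem_tr, mem_compl] at hi
    rw [hE, mem_bad] at hiE
    unfold mix at hiE
    rw [if_neg hi] at hiE
    exact agree hiE
  have htri : df a b ⊆ df a β ∪ df b β := by
    intro v hv
    rw [mem_df] at hv
    rw [mem_union, mem_df, mem_df]
    by_contra hcon
    push Not at hcon
    exact hv (hcon.1.trans hcon.2.symm)
  have htri2 := (card_le_card htri).trans (card_union_le _ _)
  have hu := P.hu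
  have hR := P.hR
  have hh := P.hh
  -- the second half of the argument
  have second : ∀ (B : Finset (Cl M)) (x y : Fin n → Bool), (df x β).card ≤ u →
      (poor e h (tr e B x)).card < s → (∀ i ∈ tr e B β, i ∉ E → ∀ r, y (e i r) = β (e i r)) →
      (df y β).card ≤ s + (R - u - s) := by
    intro B x y hx hp hy
    have h1 := P.tch _ hx
    refine half (E := E ∪ tch e (df x β)) (F := tr e B x) hp ?_ ?_ P.hw (by omega)
    · refine (card_union_le _ _).trans ?_
      omega
    · intro i hi hiE r
      rw [mem_union, not_or, mem_tch] at hiE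
      push Not at hiE
      refine hy i ?_ hiE.1 r
      have h2 : vc e x i = vc e β i := by
        unfold vc
        refine Prod.ext rfl (funext fun r => ?_)
        have h3 := hiE.2 r
        rw [mem_df, not_not] at h3
        show (!(x (e i r))) = !(β (e i r))
        rw [h3]
      rw [mem_tr] at hi ⊢
      rwa [← h2]
  have h1 := three_parts hE₁ hg₁ (F₁ := tr e A β) (F₂ := tr e Aᶜ β) (F₃ := tr e Aᶜ β) ?_
  · rcases h1 with h1 | h1
    · have h2 := half h1 hβ hA (k := 3 * q) (by omega) le_rfl
      have h3 := second Aᶜ a b (by omega) ha hB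
      omega
    · rw [or_self] at h1
      have h2 := half h1 hβ hB (k := 3 * q) (by omega) le_rfl
      have h3 := second A b a (by omega) hb hA
      omega
  · intro i
    rw [mem_tr, mem_tr, mem_compl]
    tauto

/-- Mixtures of distant assignments are far from satisfiable. -/
theorem far_mix {e : Fin M → Fin 3 → Fin n} {s s₁ h u w q R E : ℕ} (P : Par e s s₁ h u w q R)
    (hq : 8 * M ≤ E * q) {A : Finset (Cl M)} {a b : Fin n → Bool}
    (ha : (poor e h (tr e Aᶜ a)).card < s) (hb : (poor e h (tr e A b)).card < s)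
    (hab : R < (df a b).card) : Far E e (mix A (sel e a) (sel e b)) := by
  classical
  intro β
  have h1 : q < (bad e (mix A (sel e a) (sel e b)) β).card := by
    by_contra hcon
    exact absurd (close P ha hb (not_lt.1 hcon)) (not_le.2 hab)
  have h2 : (bad e (mix A (sel e a) (sel e b)) β).card ≤
      Nat.card {c // mix A (sel e a) (sel e b) c = true ∧ Violates e β c} := by
    rw [Nat.card_eq_fintype_card, Fintype.card_subtype]
    refine card_le_card_of_injOn (vc e β) (fun i hi => ?_) (fun i _ j _ hij => ?_)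
    · have hi' := mem_bad.1 (mem_coe.1 hi)
      rw [mem_coe, mem_filter]
      exact ⟨mem_univ _, hi', (violates_iff _ _ _).2 rfl⟩
    · exact congrArg Prod.fst hij
  have h3 : Nat.card {c // mix A (sel e a) (sel e b) c = true} ≤ 8 * M := by
    rw [Nat.card_eq_fintype_card]
    refine (Fintype.card_subtype_le _).trans ?_
    simp
    omega
  have h4 : 0 < E * (Nat.card {c // mix A (sel e a) (sel e b) c = true ∧ Violates e β c}) := by
    refine Nat.mul_pos ?_ (by omega)
    rcases Nat.eq_zero_or_pos E with h5 | h5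
    · subst h5
      have h6 : M = 0 := by omega
      subst h6
      have h7 : bad e (mix A (sel e a) (sel e b)) β = ∅ := by
        rw [eq_empty_iff_forall_notMem]
        intro i
        exact i.elim0
      rw [h7, card_empty] at h1
      omega
    · exact h5
  rcases Nat.eq_zero_or_pos E with h5 | h5
  · subst h5
    omega
  · calc Nat.card {c // mix A (sel e a) (sel e b) c = true} ≤ 8 * M := h3
      _ ≤ E * q := hq
      _ < E * Nat.card {c // mix A (sel e a) (sel e b) c = true ∧ Violates e β c} :=
        Nat.mul_lt_mul_of_pos_left (by omega) h5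

end Pool.Agent.TH700.GT
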