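import Mathlib.Data.Fintype.Card
import Mathlib.Data.Fintype.Pi
import Mathlib.SetTheory.Cardinal.Finite

/-!
# Selections of clauses from a system of triples
-/

set_option autoImplicit false

namespace Pool.Agent.TH700.GT

/-- The clauses of a system of triples `e` of variables: the clause `(i, s)` has the three literals
that the variable `e i r` has the value `s r`, for `r = 0, 1, 2`. The assignment `β` violates it if it makes
all three literals false. -/
def Violates {M n : ℕ} (e : Fin M → Fin 3 → Fin n) (β : Fin n → Bool)
    (c : Fin M × (Fin 3 → Bool)) : Prop :=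
  ∀ r, β (e c.1 r) ≠ c.2 r

/-- The selected clauses can be satisfied. -/
def Sat {M n : ℕ} (e : Fin M → Fin 3 → Fin n) (x : Fin M × (Fin 3 → Bool) → Bool) : Prop :=
  ∃ β : Fin n → Bool, ∀ c, x c = true → ¬ Violates e β c

/-- Every assignment violates more than one in `E` of the selected clauses. -/
def Far {M n : ℕ} (E : ℕ) (e : Fin M → Fin 3 → Fin n) (x : Fin M × (Fin 3 → Bool) → Bool) : Prop :=
  ∀ β : Fin n → Bool, Nat.card {c // x c = true} < E * Nat.card {c // x c = true ∧ Violates e β c}

end Pool.Agent.TH700.GT
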