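import Pool.Agent.TH700.GT.Cut
import Pool.Agent.TH700.GT.Defs

/-!
# The number of satisfying assignments is computed by a linear network
-/

set_option autoImplicit false

open Finset

namespace Pool.Agent.TH700.GT

open Pool.Agent.TH700.TN

variable {M n : ℕ}

open Classical in
/-- The vector of a leaf: which assignments satisfy the clause, if it is selected. -/
noncomputable def cf (e : Fin M → Fin 3 → Fin n) (c : Fin M × (Fin 3 → Bool)) (b : Bool)
    (w : Fin n → Bool) : ℚ :=
  if b = true ∧ Violates e w c then 0 else 1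

/-- The network for a list of clauses. -/
noncomputable def cnt (e : Fin M → Fin 3 → Fin n) (c : Fin M × (Fin 3 → Bool)) :
    List (Fin M × (Fin 3 → Bool)) → Net ℚ (Fin M × (Fin 3 → Bool)) (Fin n → Bool)
  | [] => .leaf c (cf e c)
  | d :: l => .node (cnt e d l) (.leaf c (cf e c))
      (fun i j k => if i = k then (if j = k then 1 else 0) else 0)

variable {e : Fin M → Fin 3 → Fin n}

theorem cnt_linear (c : Fin M × (Fin 3 → Bool)) (l : List (Fin M × (Fin 3 → Bool))) :
    (cnt e c l).Linear := by
  induction l generalizing c with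
  | nil => trivial
  | cons d l ih => exact ⟨ih d, c, cf e c, rfl⟩

theorem cnt_size (c : Fin M × (Fin 3 → Bool)) (l : List (Fin M × (Fin 3 → Bool))) :
    (cnt e c l).size = 2 * l.length + 1 := by
  induction l generalizing c with
  | nil => rfl
  | cons d l ih =>
    unfold cnt
    rw [Net.size, ih, Net.size, List.length_cons]
    ring

open Classical in
theorem cnt_reads (c w : Fin M × (Fin 3 → Bool)) (l : List (Fin M × (Fin 3 → Bool))) :
    (cnt e c l).reads w = (c :: l).count w := by
  induction l generalizing c with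
  | nil =>
    unfold cnt Net.reads
    rw [List.count_singleton]
    by_cases h : c = w <;> simp [h]
  | cons d l ih =>
    unfold cnt
    rw [Net.reads, ih, Net.reads, List.count_cons (l := d :: l)]
    by_cases h : c = w <;> simp [h]

theorem cnt_eval (c : Fin M × (Fin 3 → Bool)) (l : List (Fin M × (Fin 3 → Bool)))
    (x : Fin M × (Fin 3 → Bool) → Bool) (w : Fin n → Bool) :
    0 ≤ (cnt e c l).eval x w ∧ ((cnt e c l).eval x w ≠ 0 ↔
      ∀ d ∈ c :: l, x d = true → ¬ Violates e w d) := by
  classical
  induction l generalizing c with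
  | nil =>
    unfold cnt Net.eval cf
    by_cases h : x c = true ∧ Violates e w c
    · rw [if_pos h]
      simp [h.1, h.2]
    · rw [if_neg h]
      simpa using h
  | cons d l ih =>
    obtain ⟨h1, h2⟩ := ih d
    have h3 : (cnt e c (d :: l)).eval x w = (cnt e d l).eval x w * cf e c (x c) w := by
      show ∑ i, ∑ j, (if i = w then (if j = w then (1 : ℚ) else 0) else 0) *
        ((cnt e d l).eval x i * cf e c (x c) j) = _
      have h4 : ∀ i j : Fin n → Bool, (if i = w then (if j = w then (1 : ℚ) else 0) else 0) *
        ((cnt e d l).eval x i * cf e c (x c) j) =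
          if i = w then (if j = w then (cnt e d l).eval x i * cf e c (x c) j else 0) else 0 := by
        intro i j
        split_ifs <;> simp
      simp only [h4]
      simp
    rw [h3]
    have h5 : 0 ≤ cf e c (x c) w := by
      unfold cf
      split_ifs <;> norm_num
    have h6 : cf e c (x c) w ≠ 0 ↔ (x c = true → ¬ Violates e w c) := by
      unfold cf
      by_cases h : x c = true ∧ Violates e w c
      · rw [if_pos h]
        simp [h.1, h.2]
      · rw [if_neg h]
        simpa using h
    refine ⟨mul_nonneg h1 h5, ?_⟩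
    rw [mul_ne_zero_iff, h2, h6, List.forall_mem_cons (a := c)]
    tauto

/-- **Counting the satisfying assignments.** -/
theorem upper (hM : 1 ≤ M) (e : Fin M → Fin 3 → Fin n) :
    ∃ (T : Net ℚ (Fin M × (Fin 3 → Bool)) (Fin n → Bool)) (a : (Fin n → Bool) → ℚ),
      T.Linear ∧ (∀ c, T.reads c = 1) ∧ T.size = 16 * M - 1 ∧
        ∀ x, T.value a x ≠ 0 ↔ Sat e x := by
  classical
  obtain ⟨L, hL⟩ : ∃ L, L = (univ : Finset (Fin M × (Fin 3 → Bool))).toList := ⟨_, rfl⟩
  have hnd : L.Nodup := by rw [hL]; exact nodup_toList _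
  have hmem : ∀ v, v ∈ L := by intro v; rw [hL]; simp
  have hlen : L.length = 8 * M := by
    rw [hL, length_toList, card_univ]
    simp
    ring
  obtain ⟨c, l, rfl⟩ : ∃ v l, L = v :: l := by
    cases L with
    | nil => exact absurd (hmem (⟨0, hM⟩, fun _ => true)) (by simp)
    | cons v l => exact ⟨v, l, rfl⟩
  refine ⟨cnt e c l, fun _ => 1, cnt_linear c l, ?_, ?_, ?_⟩
  · intro w
    rw [cnt_reads]
    exact List.count_eq_one_of_mem hnd (hmem w)
  · rw [cnt_size]
    rw [List.length_cons] at hlen
    omega
  · intro x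
    unfold Net.value
    rw [Ne, sum_eq_zero_iff_of_nonneg (fun k _ => by
      rw [one_mul]
      exact (cnt_eval c l x k).1)]
    push Not
    constructor
    · rintro ⟨w, -, hw⟩
      rw [one_mul] at hw
      exact ⟨w, fun d => (cnt_eval c l x w).2.1 hw d (hmem d)⟩
    · rintro ⟨w, hw⟩
      refine ⟨w, mem_univ _, ?_⟩
      rw [one_mul]
      exact (cnt_eval c l x w).2.2 fun d _ => hw d

end Pool.Agent.TH700.GT
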