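import Pool.Agent.TH700.GT.Code
import Pool.Agent.TH700.GT.Upper

/-!
# Tensor networks for gap 3-SAT
-/

set_option autoImplicit false

open Finset

namespace Pool.Agent.TH700.GT

open Pool.Agent.TH700.TN

theorem linear_le_exp (D : ℕ) {δ : ℝ} (hδ : 0 < δ) : ∃ n₀ : ℕ, ∀ n : ℕ, n₀ ≤ n →
    ((1 + 16 * (D * n) : ℕ) : ℝ) ≤ (2 : ℝ) ^ (δ * n) := by
  have hl : 0 < Real.log 2 := Real.log_pos (by norm_num)
  obtain ⟨n₀, hn₀⟩ := exists_nat_gt (32 * D / (δ * Real.log 2) ^ 2)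
  refine ⟨n₀, fun n hn => ?_⟩
  have h1 : 32 * D / (δ * Real.log 2) ^ 2 ≤ n := hn₀.le.trans (by exact_mod_cast hn)
  rw [div_le_iff₀ (by positivity)] at h1
  have h2 := Real.quadratic_le_exp_of_nonneg (x := Real.log 2 * (δ * n)) (by positivity)
  rw [Real.rpow_def_of_pos (by norm_num)]
  refine le_trans ?_ h2
  have h3 : (0 : ℝ) ≤ n := Nat.cast_nonneg _
  have h4 : 0 ≤ Real.log 2 * (δ * n) := by positivity
  have h5 : (32 * D : ℝ) * n ≤ n * (δ * Real.log 2) ^ 2 * n := mul_le_mul_of_nonneg_right h1 h3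
  push_cast
  nlinarith

theorem main {δ : ℝ} (hδ : 0 < δ) : ∃ D E n₀ : ℕ, 1 ≤ D ∧ ∀ n : ℕ, n₀ ≤ n →
    ∃ e : Fin (D * n) → Fin 3 → Fin n, (∀ i, Function.Injective (e i)) ∧
      ∀ (μ : ℕ) (R : Type) [Fintype R] [Nonempty R] (K W : R → Type) [∀ ρ, Field (K ρ)]
        [∀ ρ, Fintype (W ρ)] (T : ∀ ρ, Net (K ρ) (Fin (D * n) × (Fin 3 → Bool)) (W ρ))
        (a : ∀ ρ, W ρ → K ρ),
        (∀ ρ c, (T ρ).reads c ≤ 1) →
        (∀ ρ x, (T ρ).value (a ρ) x ≠ 0 → ¬ Far E e x) →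
        (∀ x, Sat e x → Nat.card R ≤ 2 ^ μ * Nat.card {ρ // (T ρ).value (a ρ) x ≠ 0}) →
        ∃ ρ, (2 : ℝ) ^ ((1 - δ) * n) ≤ 2 ^ μ * ((T ρ).size * Fintype.card (W ρ)) := by
  obtain ⟨r, hr, hcode⟩ := big_code (δ := δ / 2) (by linarith)
  obtain ⟨D, E, n₁, hD, hpar⟩ := exists_par r hr
  obtain ⟨n₂, hn₂⟩ := linear_le_exp D (δ := δ / 2) (by linarith)
  refine ⟨D, E, max n₁ n₂, hD, fun n hn => ?_⟩
  obtain ⟨e, he, s, s₁, h, u, w, q, P, hq⟩ := hpar n ((le_max_left _ _).trans hn)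
  refine ⟨e, he, ?_⟩
  intro μ R _ _ K W _ _ T a h1 hs hc
  obtain ⟨C, hC, hCcard⟩ := hcode n
  obtain ⟨ρ, hρ⟩ := random_code P hq μ R K W T a h1 hs hc C hC
  refine ⟨ρ, ?_⟩
  have h2 : (C.card : ℝ) ≤ 2 ^ μ * (((1 + 16 * (D * n) : ℕ) : ℝ) *
      ((T ρ).size * Fintype.card (W ρ))) := by
    exact_mod_cast hρ
  have h3 := hn₂ n ((le_max_right _ _).trans hn)
  have h4 : (2 : ℝ) ^ ((1 - δ / 2) * n) ≤ 2 ^ μ * ((T ρ).size * Fintype.card (W ρ)) *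
      (2 : ℝ) ^ (δ / 2 * n) := by
    refine (hCcard.trans h2).trans ?_
    calc 2 ^ μ * (((1 + 16 * (D * n) : ℕ) : ℝ) * ((T ρ).size * Fintype.card (W ρ))) ≤
        2 ^ μ * ((2 : ℝ) ^ (δ / 2 * n) * ((T ρ).size * Fintype.card (W ρ))) := by
          refine mul_le_mul_of_nonneg_left ?_ (by positivity)
          exact mul_le_mul_of_nonneg_right h3 (by positivity)
      _ = _ := by ring
  have h5 : (2 : ℝ) ^ ((1 - δ) * n) * (2 : ℝ) ^ (δ / 2 * n) = (2 : ℝ) ^ ((1 - δ / 2) * n) := by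
    rw [← Real.rpow_add (by norm_num)]
    congr 1
    ring
  rw [← h5] at h4
  exact le_of_mul_le_mul_right h4 (by positivity)

end Pool.Agent.TH700.GT
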