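import Pool.Agent.TH700.GT.Rand

/-!
# The parameters
-/

set_option autoImplicit false

open Finset

namespace Pool.Agent.TH700.GT

theorem exists_par (r : ℕ) (hr : 1 ≤ r) : ∃ D E n₀ : ℕ, 1 ≤ D ∧ ∀ n, n₀ ≤ n →
    ∃ e : Fin (D * n) → Fin 3 → Fin n, (∀ i, Function.Injective (e i)) ∧
      ∃ s s₁ h u w q, Par e s s₁ h u w q (n / r) ∧ 8 * (D * n) ≤ E * q := by
  obtain ⟨a, ha⟩ : ∃ a, a = 4 * r := ⟨_, rfl⟩
  obtain ⟨P, hP⟩ : ∃ P, P = 2 * a ^ 3 := ⟨_, rfl⟩
  obtain ⟨t, ht⟩ : ∃ t, t = 216 * P * r := ⟨_, rfl⟩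
  obtain ⟨Z, hZ⟩ : ∃ Z, Z = 8 ^ t := ⟨_, rfl⟩
  obtain ⟨a₁, ha₁⟩ : ∃ a₁, a₁ = 24 * Z := ⟨_, rfl⟩
  obtain ⟨P₁, hP₁⟩ : ∃ P₁, P₁ = 2 * a₁ ^ 3 := ⟨_, rfl⟩
  obtain ⟨h, hh⟩ : ∃ h, h = 3 * P₁ := ⟨_, rfl⟩
  obtain ⟨D, hD⟩ : ∃ D, D = 2 * P * (3 * h + 6) := ⟨_, rfl⟩
  have a0 : 1 ≤ a := by omega
  have P0 : 1 ≤ P := by
    have : 1 ≤ a ^ 3 := Nat.one_le_pow _ _ a0
    omega
  have t0 : 1 ≤ t := by
    rw [ht]
    exact Nat.mul_pos (Nat.mul_pos (by norm_num) P0) hr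
  have Z0 : 1 ≤ Z := by
    rw [hZ]
    exact Nat.one_le_pow _ _ (by norm_num)
  have Zt : 2 * r ≤ Z := by
    have h1 : t < 8 ^ t := Nat.lt_pow_self (by norm_num)
    have h2 : 216 * r ≤ t := by
      rw [ht]
      calc 216 * r = 216 * 1 * r := by ring
        _ ≤ 216 * P * r := Nat.mul_le_mul_right _ (Nat.mul_le_mul_left _ P0)
    omega
  have a10 : 1 ≤ a₁ := by omega
  have P10 : 2 ≤ P₁ := by
    have : 1 ≤ a₁ ^ 3 := Nat.one_le_pow _ _ a10
    omega
  have h6 : 6 ≤ h := by omega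
  have D0 : 1 ≤ D := by
    rw [hD]
    exact Nat.mul_pos (Nat.mul_pos (by norm_num) P0) (by omega)
  have D1 : D ≤ 18 * P * h := by
    rw [hD]
    calc 2 * P * (3 * h + 6) ≤ 2 * P * (9 * h) := Nat.mul_le_mul_left _ (by omega)
      _ = _ := by ring
  have D2 : 18 * P₁ ≤ D := by
    rw [hD]
    calc 18 * P₁ = 2 * 1 * (9 * P₁) := by ring
      _ ≤ 2 * P * (9 * P₁) := Nat.mul_le_mul_right _ (Nat.mul_le_mul_left _ P0)
      _ ≤ 2 * P * (3 * h + 6) := Nat.mul_le_mul_left _ (by omega)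
  refine ⟨D, 8 * D * (144 * Z), 6 * a ^ 3 + 6 * a₁ ^ 3 + 36 * r + 72 * Z + 6, D0, ?_⟩
  intro n hn
  obtain ⟨y, hy⟩ : ∃ y, y = n / (72 * Z) := ⟨_, rfl⟩
  obtain ⟨v, hv⟩ : ∃ v, v = n / (12 * r) := ⟨_, rfl⟩
  have y1 : 1 ≤ y := by
    rw [hy]
    exact (Nat.one_le_div_iff (by omega)).2 (by omega)
  have y2 : 72 * Z * y ≤ n := by rw [hy]; exact Nat.mul_div_le _ _
  have y3 : n < 72 * Z * (y + 1) := by
    rw [hy]
    exact Nat.lt_mul_div_succ n (by omega)
  have v1 : 3 ≤ v := by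
    rw [hv, Nat.le_div_iff_mul_le (by omega)]
    omega
  have v2 : 12 * r * v ≤ n := by rw [hv]; exact Nat.mul_div_le _ _
  have v3 : n < 12 * r * (v + 1) := by
    rw [hv]
    exact Nat.lt_mul_div_succ n (by omega)
  have hs : n ≤ (n / a + 1) * a := by
    have := Nat.lt_mul_div_succ n (show 0 < a by omega)
    rw [mul_comm]
    exact this.le
  have hs₁ : n ≤ (n / a₁ + 1) * a₁ := by
    have := Nat.lt_mul_div_succ n (show 0 < a₁ by omega)
    rw [mul_comm]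
    exact this.le
  obtain ⟨e, he, hE, hE₁, htch⟩ := exists_triples (n := n) (M := D * n) (s := n / a + 1) (a := a)
    (s₁ := n / a₁ + 1) (a₁ := a₁) (g := (3 * h + 1) * n) (g₁ := 4 * n) (Z := Z)
    (c := D * n / t + 1) (u := n / (6 * Z)) (by omega) hs (by omega) hs₁ (by omega) a0 a10
    (by
      rw [← hP, hD]
      apply le_of_eq
      ring)
    (by
      rw [← hP₁]
      calc 2 * P₁ * (5 * n + 4 * n) = 18 * P₁ * n := by ring
        _ ≤ D * n := Nat.mul_le_mul_right _ D2)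
    (by
      have := Nat.div_mul_le_self n (6 * Z)
      calc 6 * (n / (6 * Z)) * Z = n / (6 * Z) * (6 * Z) := by ring
        _ ≤ n := this)
    Z0
    (by
      rw [hZ, ← pow_mul]
      refine Nat.pow_le_pow_right (by norm_num) ?_
      exact (Nat.lt_mul_div_succ (D * n) t0).le)
  refine ⟨e, he, n / a + 1, n / a₁ + 1, h, n / (6 * Z), D * n / t + 1, y, ?_, ?_⟩
  · -- the divisions
    have u1 : 12 * y ≤ n / (6 * Z) := by
      rw [Nat.le_div_iff_mul_le (by omega)]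
      calc 12 * y * (6 * Z) = 72 * Z * y := by ring
        _ ≤ n := y2
    have u2 : n / (6 * Z) ≤ v := by
      rw [hv]
      exact Nat.div_le_div_left (by omega) (by omega)
    have s1 : n / a₁ ≤ 3 * y + 2 := by
      have : n / a₁ < 3 * y + 3 := by
        rw [Nat.div_lt_iff_lt_mul (by omega), ha₁]
        calc n < 72 * Z * (y + 1) := y3
          _ = (3 * y + 3) * (24 * Z) := by ring
      omega
    have s2 : n / a ≤ 3 * v + 2 := by
      have : n / a < 3 * v + 3 := by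
        rw [Nat.div_lt_iff_lt_mul (by omega), ha]
        calc n < 12 * r * (v + 1) := v3
          _ = (3 * v + 3) * (4 * r) := by ring
      omega
    have R1 : 12 * v ≤ n / r := by
      rw [Nat.le_div_iff_mul_le (by omega)]
      calc 12 * v * r = 12 * r * v := by ring
        _ ≤ n := v2
    have q1 : y ≤ v := by
      rw [hy, hv]
      exact Nat.div_le_div_left (by omega) (by omega)
    have w1 : D * n / t ≤ h * (v + 1) := by
      refine Nat.div_le_of_le_mul ?_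
      rw [ht]
      calc D * n ≤ 18 * P * h * (12 * r * (v + 1)) := Nat.mul_le_mul D1 v3.le
        _ = _ := by ring
    refine ⟨⟨4 * n, hE₁, by omega⟩, ⟨(3 * h + 1) * n, hE, ?_⟩, htch, by omega, ?_, ?_, ?_, ?_⟩
    · have : (3 * h + 1) * n = 3 * (h * n) + n := by ring
      omega
    · have h1 : n / a ≤ n / 2 := Nat.div_le_div_left (by omega) (by norm_num)
      omega
    · omega
    · omega
    · have h1 : 5 * v ≤ n / r - n / (6 * Z) - (n / a + 1) := by omega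
      refine le_trans ?_ (Nat.mul_le_mul_left h h1)
      have h2 : 3 * (D * n / t + 1 + y) ≤ 3 * (h * (v + 1) + 1 + v) := by omega
      refine h2.trans ?_
      nlinarith
  · have h1 : n ≤ 144 * Z * y := by
      calc n ≤ 72 * Z * (y + 1) := y3.le
        _ ≤ 72 * Z * (y + y) := Nat.mul_le_mul_left _ (by omega)
        _ = _ := by ring
    calc 8 * (D * n) = 8 * D * n := by ring
      _ ≤ 8 * D * (144 * Z * y) := Nat.mul_le_mul_left _ h1
      _ = _ := by ring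

end Pool.Agent.TH700.GT
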