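import Pool.Agent.TH700.GT.Comb
import Mathlib.Analysis.Complex.ExponentialBounds
import Mathlib.Algebra.BigOperators.Ring.Finset

/-!
# Random systems of triples
-/

set_option autoImplicit false

open Finset

namespace Pool.Agent.TH700.GT

section Gen

variable {α : Type} [DecidableEq α] {M : ℕ}

open Classical in
/-- The number of coordinates in `G`. -/
noncomputable def hits (G : Finset α) (e : Fin M → α) : ℕ := (univ.filter (fun i => e i ∈ G)).card

theorem prod_hits (G : Finset α) (e : Fin M → α) (z : ℝ) :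
    ∏ i, (if e i ∈ G then z else 1) = z ^ hits G e := by
  unfold hits
  rw [prod_ite, prod_const, prod_const_one, mul_one]

theorem sum_hits (D G : Finset α) (hG : G ⊆ D) (z : ℝ) :
    ∑ e ∈ Fintype.piFinset (fun _ : Fin M => D), z ^ hits G e =
      ((D.card : ℝ) - G.card + z * G.card) ^ M := by
  have h1 := prod_univ_sum (fun _ : Fin M => D) (fun (_ : Fin M) (t : α) =>
    if t ∈ G then z else (1 : ℝ))
  rw [sum_congr rfl fun e _ => (prod_hits G e z).symm, ← h1, prod_const, card_univ,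
    Fintype.card_fin]
  congr 1
  rw [sum_ite, sum_const, sum_const]
  have h2 : D.filter (fun t => t ∈ G) = G := by
    ext t
    rw [mem_filter]
    exact ⟨fun h => h.2, fun h => ⟨hG h, h⟩⟩
  have h3 : (D.filter (fun t => ¬ t ∈ G)).card = D.card - G.card := by
    rw [filter_not, h2, card_sdiff_of_subset hG]
  rw [h2, h3, Nat.cast_sub (card_le_card hG) |> fun h => (by
    rw [nsmul_eq_mul, nsmul_eq_mul, h] : G.card • z + (D.card - G.card) • (1 : ℝ) =
      G.card * z + ((D.card : ℝ) - G.card) * 1)]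
  ring

open Classical in
theorem low (D G : Finset α) (hG : G ⊆ D) {P g k : ℕ} (hP : 1 ≤ P) (hD : D.card ≤ P * G.card)
    (hM : 2 * P * k ≤ M) :
    (((Fintype.piFinset (fun _ : Fin M => D)).filter (fun e => hits G e < g)).card : ℝ) * 2 ^ k ≤
      2 ^ g * (D.card : ℝ) ^ M := by
  have h1 := sum_hits (M := M) D G hG (1 / 2)
  have h2 : (((Fintype.piFinset (fun _ : Fin M => D)).filter (fun e => hits G e < g)).card : ℝ) *
      (1 / 2) ^ g ≤ ∑ e ∈ Fintype.piFinset (fun _ : Fin M => D), (1 / 2 : ℝ) ^ hits G e := by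
    rw [← nsmul_eq_mul, ← sum_const]
    refine le_trans (sum_le_sum (fun e he => ?_)) (sum_le_sum_of_subset_of_nonneg
      (filter_subset (fun e => hits G e < g) _) (fun e _ _ => by positivity))
    exact pow_le_pow_of_le_one (by norm_num) (by norm_num) (mem_filter.1 he).2.le
  rw [h1] at h2
  have hPr : (0 : ℝ) < P := by exact_mod_cast hP
  have h3 : (D.card : ℝ) - G.card + 1 / 2 * G.card ≤ D.card * Real.exp (-(1 / (2 * P))) := by
    have h4 : (D.card : ℝ) ≤ P * G.card := by exact_mod_cast hD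
    have h5 : (D.card : ℝ) / P ≤ G.card := by
      rw [div_le_iff₀ hPr]
      linarith
    have h6 : 1 - 1 / (2 * (P : ℝ)) ≤ Real.exp (-(1 / (2 * P))) := by
      have := Real.add_one_le_exp (-(1 / (2 * (P : ℝ))))
      linarith
    calc (D.card : ℝ) - G.card + 1 / 2 * G.card = D.card - G.card / 2 := by ring
      _ ≤ D.card - (D.card / P) / 2 := by linarith
      _ = D.card * (1 - 1 / (2 * P)) := by field_simp
      _ ≤ _ := mul_le_mul_of_nonneg_left h6 (Nat.cast_nonneg _)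
  have h0 : (0 : ℝ) ≤ (D.card : ℝ) - G.card + 1 / 2 * G.card := by
    have : (G.card : ℝ) ≤ D.card := by exact_mod_cast card_le_card hG
    have h7 : (0 : ℝ) ≤ G.card := Nat.cast_nonneg _
    linarith
  have h4 := pow_le_pow_left₀ h0 h3 M
  rw [mul_pow, ← Real.exp_nat_mul] at h4
  have h5 : Real.exp (M * (-(1 / (2 * P)))) ≤ 1 / 2 ^ k := by
    have h6 : (k : ℝ) ≤ M * (1 / (2 * P)) := by
      rw [mul_one_div, le_div_iff₀ (by positivity)]
      have : ((2 * P * k : ℕ) : ℝ) ≤ M := by exact_mod_cast hM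
      push_cast at this
      linarith
    calc Real.exp (M * (-(1 / (2 * P)))) ≤ Real.exp (-(k : ℝ)) := by
          rw [Real.exp_le_exp]
          linarith
      _ = 1 / Real.exp 1 ^ k := by
          rw [Real.exp_neg, ← Real.exp_nat_mul, mul_one, one_div]
      _ ≤ 1 / 2 ^ k := by
          refine one_div_le_one_div_of_le (by positivity) (pow_le_pow_left₀ (by norm_num) ?_ k)
          have := Real.exp_one_gt_d9
          linarith
  have h6 : (((Fintype.piFinset (fun _ : Fin M => D)).filter (fun e => hits G e < g)).card : ℝ) *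
      (1 / 2) ^ g ≤ (D.card : ℝ) ^ M * (1 / 2 ^ k) :=
    (h2.trans h4).trans (mul_le_mul_of_nonneg_left h5 (by positivity))
  have h7 := mul_le_mul_of_nonneg_left h6 (by positivity : (0 : ℝ) ≤ 2 ^ g * 2 ^ k)
  calc _ = 2 ^ g * 2 ^ k * ((((Fintype.piFinset (fun _ : Fin M => D)).filter
      (fun e => hits G e < g)).card : ℝ) * (1 / 2) ^ g) := by
        rw [one_div, inv_pow]
        field_simp
    _ ≤ _ := h7
    _ = _ := by field_simp

open Classical in
theorem high (D G : Finset α) (hG : G ⊆ D) {Z c : ℕ} (hZ : Z * G.card ≤ D.card)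
    (hc : 8 ^ M ≤ Z ^ c) (h1 : 1 ≤ Z) :
    (((Fintype.piFinset (fun _ : Fin M => D)).filter (fun e => c ≤ hits G e)).card : ℝ) * 4 ^ M ≤
      (D.card : ℝ) ^ M := by
  have e1 := sum_hits (M := M) D G hG (Z : ℝ)
  have hZ1 : (1 : ℝ) ≤ Z := by exact_mod_cast h1
  have h2 : (((Fintype.piFinset (fun _ : Fin M => D)).filter (fun e => c ≤ hits G e)).card : ℝ) *
      (Z : ℝ) ^ c ≤ ∑ e ∈ Fintype.piFinset (fun _ : Fin M => D), (Z : ℝ) ^ hits G e := by
    rw [← nsmul_eq_mul, ← sum_const]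
    refine le_trans (sum_le_sum (fun e he => ?_)) (sum_le_sum_of_subset_of_nonneg
      (filter_subset (fun e => c ≤ hits G e) _) (fun e _ _ => by positivity))
    exact pow_le_pow_right₀ hZ1 (mem_filter.1 he).2
  rw [e1] at h2
  have h3 : (D.card : ℝ) - G.card + Z * G.card ≤ 2 * D.card := by
    have h4 : (Z : ℝ) * G.card ≤ D.card := by exact_mod_cast hZ
    have h5 : (0 : ℝ) ≤ G.card := Nat.cast_nonneg _
    linarith
  have h0 : (0 : ℝ) ≤ (D.card : ℝ) - G.card + Z * G.card := by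
    have : (G.card : ℝ) ≤ D.card := by exact_mod_cast card_le_card hG
    have h7 : (0 : ℝ) ≤ Z * G.card := by positivity
    linarith
  have h4 := h2.trans (pow_le_pow_left₀ h0 h3 M)
  have h5 : (8 : ℝ) ^ M ≤ (Z : ℝ) ^ c := by exact_mod_cast hc
  have h6 : (((Fintype.piFinset (fun _ : Fin M => D)).filter (fun e => c ≤ hits G e)).card : ℝ) *
      8 ^ M ≤ (2 * D.card) ^ M := (mul_le_mul_of_nonneg_left h5 (Nat.cast_nonneg _)).trans h4
  have h7 : (8 : ℝ) ^ M = 4 ^ M * 2 ^ M := by rw [← mul_pow]; norm_num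
  rw [h7, mul_pow, ← mul_assoc, mul_comm ((2 : ℝ) ^ M)] at h6
  exact le_of_mul_le_mul_right h6 (by positivity)

end Gen

/-! ### triples -/

section Trip

variable {n : ℕ}

/-- The triples of distinct variables. -/
def dis (n : ℕ) : Finset (Fin n × Fin n × Fin n) :=
  univ.filter (fun t => t.1 ≠ t.2.1 ∧ t.1 ≠ t.2.2 ∧ t.2.1 ≠ t.2.2)

theorem card_compl_dis (n : ℕ) : ((dis n)ᶜ).card ≤ 3 * n ^ 2 := by
  have h1 : (dis n)ᶜ ⊆ (univ : Finset (Fin n × Fin n)).image (fun p => (p.1, p.1, p.2)) ∪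
      ((univ : Finset (Fin n × Fin n)).image (fun p => (p.1, p.2, p.1)) ∪
        (univ : Finset (Fin n × Fin n)).image (fun p => (p.1, p.2, p.2))) := by
    rintro ⟨a, b, c⟩ h
    unfold dis at h
    rw [mem_compl, mem_filter] at h
    rw [mem_union, mem_union, mem_image, mem_image, mem_image]
    by_cases h1 : a = b
    · subst h1
      exact Or.inl ⟨(a, c), mem_univ _, rfl⟩
    · by_cases h2 : a = c
      · subst h2
        exact Or.inr (Or.inl ⟨(a, b), mem_univ _, rfl⟩)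
      · by_cases h3 : b = c
        · subst h3
          exact Or.inr (Or.inr ⟨(a, b), mem_univ _, rfl⟩)
        · exact absurd ⟨mem_univ _, h1, h2, h3⟩ h
  have h2 := card_le_card h1
  have h3 := card_union_le ((univ : Finset (Fin n × Fin n)).image (fun p => (p.1, p.1, p.2)))
    ((univ : Finset (Fin n × Fin n)).image (fun p => (p.1, p.2, p.1)) ∪
        (univ : Finset (Fin n × Fin n)).image (fun p => (p.1, p.2, p.2)))
  have h4 := card_union_le ((univ : Finset (Fin n × Fin n)).image (fun p => (p.1, p.2, p.1)))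
    ((univ : Finset (Fin n × Fin n)).image (fun p => (p.1, p.2, p.2)))
  have hu : (univ : Finset (Fin n × Fin n)).card = n ^ 2 := by simp [sq]
  have h5 := card_image_le (s := (univ : Finset (Fin n × Fin n))) (f := fun p => (p.1, p.1, p.2))
  have h6 := card_image_le (s := (univ : Finset (Fin n × Fin n))) (f := fun p => (p.1, p.2, p.1))
  have h7 := card_image_le (s := (univ : Finset (Fin n × Fin n))) (f := fun p => (p.1, p.2, p.2))
  rw [hu] at h5 h6 h7
  omega

theorem card_dis_le (n : ℕ) : (dis n).card ≤ n ^ 3 := by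
  refine (card_le_univ _).trans ?_
  simp
  apply le_of_eq
  ring

theorem card_dis_ge {n : ℕ} (hn : 6 ≤ n) : n ^ 3 ≤ 2 * (dis n).card := by
  have h1 := card_compl_dis n
  rw [card_compl] at h1
  have h2 : Fintype.card (Fin n × Fin n × Fin n) = n ^ 3 := by
    simp
    ring
  rw [h2] at h1
  have h3 : 6 * n ^ 2 ≤ n ^ 3 := by
    calc 6 * n ^ 2 ≤ n * n ^ 2 := Nat.mul_le_mul_right _ hn
      _ = _ := by ring
  omega

/-- The triples in `X × Y × Z`. -/
def box (X Y Z : Finset (Fin n)) : Finset (Fin n × Fin n × Fin n) :=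
  (X ×ˢ (Y ×ˢ Z)) ∩ dis n

theorem card_box {X Y Z : Finset (Fin n)} {s a : ℕ} (ha : n ≤ s * a) (hn : 6 * a ^ 3 ≤ n)
    (hX : s ≤ X.card) (hY : s ≤ Y.card) (hZ : s ≤ Z.card) :
    (dis n).card ≤ 2 * a ^ 3 * (box X Y Z).card := by
  have h1 : s ^ 3 ≤ (X ×ˢ (Y ×ˢ Z)).card := by
    rw [card_product, card_product]
    calc s ^ 3 = s * (s * s) := by ring
      _ ≤ _ := Nat.mul_le_mul hX (Nat.mul_le_mul hY hZ)
  have h2 : (X ×ˢ (Y ×ˢ Z)).card ≤ (box X Y Z).card + 3 * n ^ 2 := by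
    have h3 : X ×ˢ (Y ×ˢ Z) ⊆ box X Y Z ∪ (dis n)ᶜ := by
      intro t ht
      unfold box
      rw [mem_union, mem_inter, mem_compl]
      by_cases h : t ∈ dis n
      · exact Or.inl ⟨ht, h⟩
      · exact Or.inr h
    have h4 := (card_le_card h3).trans (card_union_le _ _)
    have h5 := card_compl_dis n
    omega
  have h3 : n ^ 3 ≤ a ^ 3 * s ^ 3 := by
    rw [← mul_pow, mul_comm a s]
    exact Nat.pow_le_pow_left ha 3
  have h4 : 6 * a ^ 3 * n ^ 2 ≤ n ^ 3 := by
    calc 6 * a ^ 3 * n ^ 2 ≤ n * n ^ 2 := Nat.mul_le_mul_right _ hn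
      _ = _ := by ring
  have h5 := card_dis_le n
  have h6 : a ^ 3 * s ^ 3 ≤ a ^ 3 * ((box X Y Z).card + 3 * n ^ 2) :=
    Nat.mul_le_mul_left _ (h1.trans h2)
  have h7 : a ^ 3 * ((box X Y Z).card + 3 * n ^ 2) = a ^ 3 * (box X Y Z).card +
    3 * a ^ 3 * n ^ 2 := by ring
  have h8 : 2 * a ^ 3 * (box X Y Z).card = 2 * (a ^ 3 * (box X Y Z).card) := by ring
  have h9 : 6 * a ^ 3 * n ^ 2 = 2 * (3 * a ^ 3 * n ^ 2) := by ring
  omega

/-- The triples which meet `S`. -/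
def star (S : Finset (Fin n)) : Finset (Fin n × Fin n × Fin n) :=
  (dis n).filter (fun t => t.1 ∈ S ∨ t.2.1 ∈ S ∨ t.2.2 ∈ S)

theorem card_star (S : Finset (Fin n)) : (star S).card ≤ 3 * (S.card * n ^ 2) := by
  have h1 : star S ⊆ S ×ˢ ((univ : Finset (Fin n)) ×ˢ (univ : Finset (Fin n))) ∪
      ((univ : Finset (Fin n)) ×ˢ (S ×ˢ (univ : Finset (Fin n))) ∪
        (univ : Finset (Fin n)) ×ˢ ((univ : Finset (Fin n)) ×ˢ S)) := by
    rintro ⟨a, b, c⟩ h
    unfold star at h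
    rw [mem_filter] at h
    simp only [mem_union, mem_product, mem_univ, true_and, and_true]
    exact h.2
  have h2 := card_le_card h1
  have h3 := card_union_le (S ×ˢ ((univ : Finset (Fin n)) ×ˢ (univ : Finset (Fin n))))
    ((univ : Finset (Fin n)) ×ˢ (S ×ˢ (univ : Finset (Fin n))) ∪
        (univ : Finset (Fin n)) ×ˢ ((univ : Finset (Fin n)) ×ˢ S))
  have h4 := card_union_le ((univ : Finset (Fin n)) ×ˢ (S ×ˢ (univ : Finset (Fin n))))
    ((univ : Finset (Fin n)) ×ˢ ((univ : Finset (Fin n)) ×ˢ S))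
  have e1 : (S ×ˢ ((univ : Finset (Fin n)) ×ˢ (univ : Finset (Fin n)))).card = S.card * n ^ 2 := by
    simp [card_product, sq]
  have e2 : ((univ : Finset (Fin n)) ×ˢ (S ×ˢ (univ : Finset (Fin n)))).card =
      S.card * n ^ 2 := by
    simp [card_product, sq]
    ring
  have e3 : ((univ : Finset (Fin n)) ×ˢ ((univ : Finset (Fin n)) ×ˢ S)).card =
      S.card * n ^ 2 := by
    simp [card_product, sq]
    ring
  omega

/-- The system of triples given by a sequence. -/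
def toE {M : ℕ} (e : Fin M → Fin n × Fin n × Fin n) (i : Fin M) : Fin 3 → Fin n :=
  ![(e i).1, (e i).2.1, (e i).2.2]

theorem toE_inj {M : ℕ} {e : Fin M → Fin n × Fin n × Fin n} {i : Fin M} (h : e i ∈ dis n) :
    Function.Injective (toE e i) := by
  unfold dis at h
  obtain ⟨-, h1, h2, h3⟩ := mem_filter.1 h
  intro r r' hr
  fin_cases r <;> fin_cases r' <;> simp [toE] at hr ⊢
  · exact h1 hr
  · exact h2 hr
  · exact h1 hr.symm
  · exact h3 hr
  · exact h2 hr.symm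
  · exact h3 hr.symm

theorem box_tch {M : ℕ} {e : Fin M → Fin n × Fin n × Fin n} {X Y Z : Finset (Fin n)} :
    hits (box X Y Z) e ≤ (tch (toE e) X ∩ tch (toE e) Y ∩ tch (toE e) Z).card := by
  classical
  unfold hits
  refine card_le_card fun i hi => ?_
  rw [mem_filter] at hi
  obtain ⟨-, hi⟩ := hi
  unfold box at hi
  rw [mem_inter, mem_product, mem_product] at hi
  rw [mem_inter, mem_inter, mem_tch, mem_tch, mem_tch]
  exact ⟨⟨⟨0, hi.1.1⟩, ⟨1, hi.1.2.1⟩⟩, ⟨2, hi.1.2.2⟩⟩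

theorem tch_star {M : ℕ} {e : Fin M → Fin n × Fin n × Fin n} (he : ∀ i, e i ∈ dis n)
    {S : Finset (Fin n)} : (tch (toE e) S).card ≤ hits (star S) e := by
  classical
  unfold hits
  refine card_le_card fun i hi => ?_
  rw [mem_tch] at hi
  obtain ⟨r, hr⟩ := hi
  rw [mem_filter]
  refine ⟨mem_univ _, ?_⟩
  unfold star
  rw [mem_filter]
  refine ⟨he i, ?_⟩
  fin_cases r
  · exact Or.inl hr
  · exact Or.inr (Or.inl hr)
  · exact Or.inr (Or.inr hr)

end Trip

/-- A random system of triples is expanding. -/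
theorem exists_triples {n M s a s₁ a₁ g g₁ Z c u : ℕ} (hn : 6 ≤ n) (hs : n ≤ s * a)
    (ha : 6 * a ^ 3 ≤ n) (hs₁ : n ≤ s₁ * a₁) (ha₁ : 6 * a₁ ^ 3 ≤ n) (h0 : 1 ≤ a) (h0' : 1 ≤ a₁)
    (hM : 2 * (2 * a ^ 3) * (5 * n + g) ≤ M) (hM₁ : 2 * (2 * a₁ ^ 3) * (5 * n + g₁) ≤ M)
    (hu : 6 * u * Z ≤ n) (hZ : 1 ≤ Z) (hc : 8 ^ M ≤ Z ^ c) :
    ∃ e : Fin M → Fin 3 → Fin n, (∀ i, Function.Injective (e i)) ∧ Exp e s g ∧ Exp e s₁ g₁ ∧
      ∀ S : Finset (Fin n), S.card ≤ u → (tch e S).card ≤ c := by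
  classical
  obtain ⟨Ω, hΩ⟩ : ∃ Ω, Ω = Fintype.piFinset (fun _ : Fin M => dis n) := ⟨_, rfl⟩
  have hcard : (Ω.card : ℝ) = ((dis n).card : ℝ) ^ M := by
    rw [hΩ, Fintype.card_piFinset]
    simp
  have hdis : 0 < (dis n).card := by
    have := card_dis_ge hn
    have h6 : 0 < n ^ 3 := by positivity
    omega
  have hpos : (0 : ℝ) < ((dis n).card : ℝ) ^ M := by positivity
  -- the bad events
  have hfin : (Fintype.card (Finset (Fin n) × Finset (Fin n) × Finset (Fin n)) : ℝ) =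
      8 ^ n := by
    simp
    rw [← mul_pow, ← mul_pow]
    norm_num
  have lo : ∀ s a g : ℕ, n ≤ s * a → 6 * a ^ 3 ≤ n → 1 ≤ a →
      2 * (2 * a ^ 3) * (5 * n + g) ≤ M →
      (((univ.filter (fun q : Finset (Fin n) × Finset (Fin n) × Finset (Fin n) =>
        s ≤ q.1.card ∧ s ≤ q.2.1.card ∧ s ≤ q.2.2.card)).biUnion (fun q =>
          Ω.filter (fun e => hits (box q.1 q.2.1 q.2.2) e < g))).card : ℝ) * 4 ^ n ≤
        ((dis n).card : ℝ) ^ M := by
    intro s a g hs ha h0 hM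
    obtain ⟨Q, hQ⟩ : ∃ Q, Q = univ.filter (fun q : Finset (Fin n) × Finset (Fin n) ×
      Finset (Fin n) => s ≤ q.1.card ∧ s ≤ q.2.1.card ∧ s ≤ q.2.2.card) := ⟨_, rfl⟩
    rw [← hQ]
    have h1 : ((Q.biUnion (fun q => Ω.filter (fun e => hits (box q.1 q.2.1 q.2.2) e < g))).card : ℝ)
        ≤ ∑ q ∈ Q, ((Ω.filter (fun e => hits (box q.1 q.2.1 q.2.2) e < g)).card : ℝ) := by
      exact_mod_cast card_biUnion_le
    have h2 : ∀ q ∈ Q, ((Ω.filter (fun e => hits (box q.1 q.2.1 q.2.2) e < g)).card : ℝ) ≤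
        ((dis n).card : ℝ) ^ M / 32 ^ n := by
      intro q hq
      rw [hQ, mem_filter] at hq
      obtain ⟨-, q1, q2, q3⟩ := hq
      have h3 := low (M := M) (dis n) (box q.1 q.2.1 q.2.2) inter_subset_right
        (P := 2 * a ^ 3) (g := g) (k := 5 * n + g)
        (Nat.mul_pos (by norm_num) (Nat.pow_pos h0)) (card_box hs ha q1 q2 q3) hM
      rw [← hΩ] at h3
      rw [le_div_iff₀ (by positivity)]
      have h4 : (2 : ℝ) ^ (5 * n + g) = 32 ^ n * 2 ^ g := by
        rw [pow_add, pow_mul]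
        norm_num
      rw [h4, ← mul_assoc, mul_comm ((2 : ℝ) ^ g)] at h3
      exact le_of_mul_le_mul_right h3 (by positivity)
    have h3 := h1.trans (sum_le_sum h2)
    rw [sum_const, nsmul_eq_mul] at h3
    have h4 : (Q.card : ℝ) ≤ 8 ^ n := by
      rw [← hfin]
      exact_mod_cast card_le_univ Q
    calc _ ≤ (Q.card : ℝ) * (((dis n).card : ℝ) ^ M / 32 ^ n) * 4 ^ n :=
          mul_le_mul_of_nonneg_right h3 (by positivity)
      _ ≤ 8 ^ n * (((dis n).card : ℝ) ^ M / 32 ^ n) * 4 ^ n := by gcongr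
      _ = _ := by
        have : (32 : ℝ) ^ n = 8 ^ n * 4 ^ n := by rw [← mul_pow]; norm_num
        rw [this]
        field_simp
  have hi : (((univ.filter (fun S : Finset (Fin n) => S.card ≤ u)).biUnion (fun S =>
      Ω.filter (fun e => c ≤ hits (star S) e))).card : ℝ) * 2 ^ n ≤ ((dis n).card : ℝ) ^ M := by
    obtain ⟨Q, hQ⟩ : ∃ Q, Q = univ.filter (fun S : Finset (Fin n) => S.card ≤ u) := ⟨_, rfl⟩
    rw [← hQ]
    have h1 : ((Q.biUnion (fun S => Ω.filter (fun e => c ≤ hits (star S) e))).card : ℝ)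
        ≤ ∑ S ∈ Q, ((Ω.filter (fun e => c ≤ hits (star S) e)).card : ℝ) := by
      exact_mod_cast card_biUnion_le
    have hMn : n ≤ M := by
      have h2 : 1 ≤ 2 * (2 * a ^ 3) := by
        have : 1 ≤ a ^ 3 := Nat.one_le_pow _ _ h0
        omega
      calc n ≤ 1 * (5 * n + g) := by omega
        _ ≤ _ := Nat.mul_le_mul_right _ h2
        _ ≤ M := hM
    have h2 : ∀ S ∈ Q, ((Ω.filter (fun e => c ≤ hits (star S) e)).card : ℝ) ≤
        ((dis n).card : ℝ) ^ M / 4 ^ n := by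
      intro S hS
      rw [hQ, mem_filter] at hS
      have h3 := high (M := M) (dis n) (star S) (filter_subset _ _) (Z := Z) (c := c) ?_ hc hZ
      · rw [← hΩ] at h3
        rw [le_div_iff₀ (by positivity)]
        refine le_trans ?_ h3
        gcongr
        norm_num
      · have h4 := card_star S
        have h5 := card_dis_ge hn
        have h6 : Z * (star S).card ≤ Z * (3 * (u * n ^ 2)) :=
          Nat.mul_le_mul_left _ (h4.trans (Nat.mul_le_mul_left _ (Nat.mul_le_mul_right _ hS.2)))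
        have h7 : 2 * (Z * (3 * (u * n ^ 2))) ≤ n ^ 3 := by
          calc 2 * (Z * (3 * (u * n ^ 2))) = (6 * u * Z) * n ^ 2 := by ring
            _ ≤ n * n ^ 2 := Nat.mul_le_mul_right _ hu
            _ = _ := by ring
        omega
    have h3 := h1.trans (sum_le_sum h2)
    rw [sum_const, nsmul_eq_mul] at h3
    have h4 : (Q.card : ℝ) ≤ 2 ^ n := by
      have h5 := card_le_univ Q
      rw [Fintype.card_finset, Fintype.card_fin] at h5
      exact_mod_cast h5
    calc _ ≤ (Q.card : ℝ) * (((dis n).card : ℝ) ^ M / 4 ^ n) * 2 ^ n :=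
          mul_le_mul_of_nonneg_right h3 (by positivity)
      _ ≤ 2 ^ n * (((dis n).card : ℝ) ^ M / 4 ^ n) * 2 ^ n := by gcongr
      _ = _ := by
        have : (4 : ℝ) ^ n = 2 ^ n * 2 ^ n := by rw [← mul_pow]; norm_num
        rw [this]
        field_simp
  obtain ⟨B₁, hB₁⟩ : ∃ B₁, B₁ = (univ.filter (fun q : Finset (Fin n) × Finset (Fin n) ×
      Finset (Fin n) => s ≤ q.1.card ∧ s ≤ q.2.1.card ∧ s ≤ q.2.2.card)).biUnion (fun q =>
          Ω.filter (fun e => hits (box q.1 q.2.1 q.2.2) e < g)) := ⟨_, rfl⟩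
  obtain ⟨B₂, hB₂⟩ : ∃ B₂, B₂ = (univ.filter (fun q : Finset (Fin n) × Finset (Fin n) ×
      Finset (Fin n) => s₁ ≤ q.1.card ∧ s₁ ≤ q.2.1.card ∧ s₁ ≤ q.2.2.card)).biUnion (fun q =>
          Ω.filter (fun e => hits (box q.1 q.2.1 q.2.2) e < g₁)) := ⟨_, rfl⟩
  obtain ⟨B₃, hB₃⟩ : ∃ B₃, B₃ = (univ.filter (fun S : Finset (Fin n) => S.card ≤ u)).biUnion
      (fun S => Ω.filter (fun e => c ≤ hits (star S) e)) := ⟨_, rfl⟩
  have l1 := lo s a g hs ha h0 hM
  have l2 := lo s₁ a₁ g₁ hs₁ ha₁ h0' hM₁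
  rw [← hB₁] at l1
  rw [← hB₂] at l2
  rw [← hB₃] at hi
  have hlt : ((B₁ ∪ (B₂ ∪ B₃)).card : ℝ) < Ω.card := by
    rw [hcard]
    have c1 : ((B₁ ∪ (B₂ ∪ B₃)).card : ℝ) ≤ B₁.card + (B₂.card + B₃.card) := by
      have := card_union_le B₁ (B₂ ∪ B₃)
      have := card_union_le B₂ B₃
      have h : (B₁ ∪ (B₂ ∪ B₃)).card ≤ B₁.card + (B₂.card + B₃.card) := by omega
      exact_mod_cast h
    have p4 : (16 : ℝ) ≤ 4 ^ n := by
      calc (16 : ℝ) = 4 ^ 2 := by norm_num
        _ ≤ 4 ^ n := pow_le_pow_right₀ (by norm_num) (by omega)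
    have p2 : (4 : ℝ) ≤ 2 ^ n := by
      calc (4 : ℝ) = 2 ^ 2 := by norm_num
        _ ≤ 2 ^ n := pow_le_pow_right₀ (by norm_num) (by omega)
    have d1 : (B₁.card : ℝ) * 16 ≤ ((dis n).card : ℝ) ^ M :=
      (mul_le_mul_of_nonneg_left p4 (Nat.cast_nonneg _)).trans l1
    have d2 : (B₂.card : ℝ) * 16 ≤ ((dis n).card : ℝ) ^ M :=
      (mul_le_mul_of_nonneg_left p4 (Nat.cast_nonneg _)).trans l2
    have d3 : (B₃.card : ℝ) * 4 ≤ ((dis n).card : ℝ) ^ M :=
      (mul_le_mul_of_nonneg_left p2 (Nat.cast_nonneg _)).trans hi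
    linarith
  have hex : ∃ e ∈ Ω, e ∉ B₁ ∪ (B₂ ∪ B₃) := by
    by_contra hcon
    push Not at hcon
    have h1 : Ω ⊆ B₁ ∪ (B₂ ∪ B₃) := hcon
    have h2 := card_le_card h1
    have h3 : (Ω.card : ℝ) ≤ (B₁ ∪ (B₂ ∪ B₃)).card := by exact_mod_cast h2
    linarith
  obtain ⟨e, heΩ, he⟩ := hex
  rw [mem_union, mem_union, not_or, not_or] at he
  obtain ⟨g1, g2, g3⟩ := he
  have hed : ∀ i, e i ∈ dis n := by
    rw [hΩ, Fintype.mem_piFinset] at heΩ
    exact heΩ
  refine ⟨toE e, fun i => toE_inj (hed i), ?_, ?_, ?_⟩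
  · intro X Y Z hX hY hZ
    refine le_trans ?_ box_tch
    by_contra hlt
    apply g1
    rw [hB₁, mem_biUnion]
    exact ⟨(X, Y, Z), mem_filter.2 ⟨mem_univ _, hX, hY, hZ⟩, mem_filter.2 ⟨heΩ, not_le.1 hlt⟩⟩
  · intro X Y Z hX hY hZ
    refine le_trans ?_ box_tch
    by_contra hlt
    apply g2
    rw [hB₂, mem_biUnion]
    exact ⟨(X, Y, Z), mem_filter.2 ⟨mem_univ _, hX, hY, hZ⟩, mem_filter.2 ⟨heΩ, not_le.1 hlt⟩⟩
  · intro S hS
    refine (tch_star hed).trans ?_
    by_contra hlt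
    apply g3
    rw [hB₃, mem_biUnion]
    exact ⟨S, mem_filter.2 ⟨mem_univ _, hS⟩, mem_filter.2 ⟨heΩ, (not_le.1 hlt).le⟩⟩

end Pool.Agent.TH700.GT
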